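import Pool.Agent.FNY.Def

/-! # Generic points: definitions -/

namespace Pool.Agent.FNG

open MvPolynomial

/-- the point `(x, y, β)` -/
def pt {L : Type} {k l m : ℕ} (x : Fin k → L) (y : Fin l → L) (β : Fin m → L) :
    Fin k ⊕ (Fin l ⊕ Fin m) → L :=
  Sum.elim x (Sum.elim y β)

/-- the Jacobian with respect to the last variables -/
noncomputable def Jac {K : Type} [Field K] {k l m : ℕ}
    (P : Fin m → MvPolynomial (Fin k ⊕ (Fin l ⊕ Fin m)) K) :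
    Matrix (Fin m) (Fin m) (MvPolynomial (Fin k ⊕ (Fin l ⊕ Fin m)) K) :=
  Matrix.of fun i i' => pderiv (Sum.inr (Sum.inr i')) (P i)

/-- the derivation along `P = 0` which is `det J * ∂ / ∂ Y_j` on polynomials in `Y` -/
noncomputable def DD {K : Type} [Field K] {k l m : ℕ}
    (P : Fin m → MvPolynomial (Fin k ⊕ (Fin l ⊕ Fin m)) K) (j : Fin l)
    (Φ : MvPolynomial (Fin k ⊕ (Fin l ⊕ Fin m)) K) :
    MvPolynomial (Fin k ⊕ (Fin l ⊕ Fin m)) K :=
  (Jac P).det * pderiv (Sum.inr (Sum.inl j)) Φ - ∑ i, (∑ i', (Jac P).adjugate i i' *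
    pderiv (Sum.inr (Sum.inl j)) (P i')) * pderiv (Sum.inr (Sum.inr i)) Φ

/-- `y` is `s`-generic over `x` -/
def GenY (K : Type) [Field K] [Algebra K ℂ] (s : ℕ) {k l : ℕ} (x : Fin k → ℂ) (y : Fin l → ℂ) :
    Prop :=
  ∀ (m : ℕ) (P : Fin m → MvPolynomial (Fin k ⊕ (Fin l ⊕ Fin m)) K)
    (R : MvPolynomial (Fin k ⊕ (Fin l ⊕ Fin m)) K) (β : Fin m → ℂ), m ≤ s →
    (∀ i, (P i).support.card ≤ s) → R.support.card ≤ s →
    (∀ i, aeval (Sum.elim x (Sum.elim y β)) (P i) = 0) →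
    (Matrix.of fun i i' => aeval (Sum.elim x (Sum.elim y β))
      (pderiv (Sum.inr (Sum.inr i')) (P i))).det ≠ 0 →
    aeval (Sum.elim x (Sum.elim y β)) R = 0 →
      ∀ᶠ q : (Fin l → ℂ) × (Fin m → ℂ) in nhds (y, β),
        (∀ i, aeval (Sum.elim x (Sum.elim q.1 q.2)) (P i) = 0) →
          aeval (Sum.elim x (Sum.elim q.1 q.2)) R = 0

end Pool.Agent.FNG
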