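import Pool.Agent.FNG.Def
import Pool.Agent.FN.DerA

/-! # The ideal of a generic point is stable under the derivations along `P = 0` -/

set_option autoImplicit false
set_option linter.unusedVariables false

namespace Pool.Agent.FNG

open MvPolynomial

theorem lift_adj {K L : Type} [Field K] [Field L] [Algebra K L] {k l : ℕ} (x : Fin k → L)
    (Q : MvPolynomial (Fin l) (Algebra.adjoin K (Set.range x))) :
    ∃ Φ : MvPolynomial (Fin k ⊕ Fin l) K, ∀ y : Fin l → L,
      aeval (Sum.elim x y) Φ = aeval y Q := by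
  induction Q using MvPolynomial.induction_on with
  | C a =>
    have h1 : (a : L) ∈ (aeval x : MvPolynomial (Fin k) K →ₐ[K] L).range := by
      rw [← Algebra.adjoin_range_eq_range_aeval]
      exact a.2
    obtain ⟨p, hp⟩ := h1
    refine ⟨rename Sum.inl p, fun y => ?_⟩
    rw [aeval_rename, Sum.elim_comp_inl, aeval_C]
    exact hp
  | add p q hp hq =>
    obtain ⟨P, hP⟩ := hp
    obtain ⟨Q, hQ⟩ := hq
    exact ⟨P + Q, fun y => by rw [map_add, map_add, hP, hQ]⟩
  | mul_X p i hp =>
    obtain ⟨P, hP⟩ := hp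
    refine ⟨P * X (Sum.inr i), fun y => ?_⟩
    rw [map_mul, map_mul, hP, aeval_X, aeval_X, Sum.elim_inr]

theorem algInd_of {K : Type} [Field K] [Algebra K ℂ] {k l : ℕ} (x : Fin k → ℂ) (z : Fin l → ℂ)
    (hz : ∀ Φ : MvPolynomial (Fin k ⊕ Fin l) K, aeval (Sum.elim x z) Φ = 0 →
      ∀ y : Fin l → ℂ, aeval (Sum.elim x y) Φ = 0) :
    AlgebraicIndependent (Algebra.adjoin K (Set.range x)) z := by
  rw [algebraicIndependent_iff]
  intro Q hQ
  obtain ⟨Φ, hΦ⟩ := lift_adj x Q
  have h1 := hz Φ (by rw [hΦ]; exact hQ)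
  have h2 : map (algebraMap (Algebra.adjoin K (Set.range x)) ℂ) Q = 0 := by
    apply MvPolynomial.funext
    intro y
    rw [eval_map, map_zero, ← aeval_def, ← hΦ, h1]
  exact (map_injective _ (FaithfulSMul.algebraMap_injective _ _)) (by rw [h2, map_zero])

open scoped IntermediateField.algebraAdjoinAdjoin in
theorem algInd_field {K : Type} [Field K] [Algebra K ℂ] {k l : ℕ} (x : Fin k → ℂ)
    (z : Fin l → ℂ) (h : AlgebraicIndependent (Algebra.adjoin K (Set.range x)) z) :
    AlgebraicIndependent (IntermediateField.adjoin K (Set.range x)) z := by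
  have h1 : Algebra.IsAlgebraic (Algebra.adjoin K (Set.range x))
      (IntermediateField.adjoin K (Set.range x)) := by
    refine ⟨fun w => ?_⟩
    rw [IsFractionRing.isAlgebraic_iff (Algebra.adjoin K (Set.range x))
      (IntermediateField.adjoin K (Set.range x)) (IntermediateField.adjoin K (Set.range x))]
    exact isAlgebraic_algebraMap w
  exact h.extendScalars (IntermediateField.adjoin K (Set.range x))

theorem exists_ders {K : Type} [Field K] [CharZero K] [Algebra K ℂ] {k l : ℕ} (x : Fin k → ℂ)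
    (z : Fin l → ℂ) (h : AlgebraicIndependent (IntermediateField.adjoin K (Set.range x)) z)
    (j : Fin l) : ∃ d : Derivation K ℂ ℂ, (∀ i, d (x i) = 0) ∧ ∀ i, d (z i) = if i = j then 1 else 0 := by
  classical
  have hr : AlgebraicIndepOn (IntermediateField.adjoin K (Set.range x)) id (Set.range z) :=
    h.to_subtype_range
  obtain ⟨B, hsub, hB⟩ := exists_isTranscendenceBasis_superset hr
  have hmem : ∀ t, z t ∈ B := fun t => hsub ⟨t, rfl⟩
  obtain ⟨d, hd⟩ := Pool.Agent.FN.exists_der_basis ((↑) : B → ℂ) hB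
    fun w => if (w : ℂ) = z j then 1 else 0
  refine ⟨d.restrictScalars K, fun i => ?_, fun i => ?_⟩
  · have h1 : x i ∈ IntermediateField.adjoin K (Set.range x) :=
      IntermediateField.subset_adjoin K _ ⟨i, rfl⟩
    exact d.map_algebraMap ⟨x i, h1⟩
  · change d (z i) = _
    rw [hd ⟨z i, hmem i⟩]
    exact if_congr ⟨fun h1 => h.injective h1, fun h1 => by rw [h1]⟩ rfl rfl

theorem der_aeval {K σ : Type} [Field K] [Fintype σ] [Algebra K ℂ] (d : Derivation K ℂ ℂ)
    (c : σ → ℂ) (Φ : MvPolynomial σ K) :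
    d (aeval c Φ) = ∑ i, aeval c (pderiv i Φ) * d (c i) := by
  classical
  induction Φ using MvPolynomial.induction_on with
  | C a => simp
  | add p q hp hq =>
    simp only [map_add, hp, hq, add_mul, Finset.sum_add_distrib]
  | mul_X p i hp =>
    simp only [map_mul, aeval_X, Derivation.leibniz, smul_eq_mul, hp, pderiv_X, map_add]
    simp only [add_mul, Finset.sum_add_distrib, Finset.mul_sum]
    congr 1
    · rw [Finset.sum_eq_single i]
      · simp
      · intro b _ hb
        rw [Pi.single_eq_of_ne (Ne.symm hb)]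
        simp
      · simp
    · exact Finset.sum_congr rfl fun b _ => by ring

/-- (A) -/
theorem part_stable {K : Type} [Field K] [CharZero K] [Algebra K ℂ] {k l m : ℕ}
    (x : Fin k → ℂ) (z : Fin l → ℂ) (α : Fin m → ℂ)
    (hz : ∀ Φ : MvPolynomial (Fin k ⊕ Fin l) K, aeval (Sum.elim x z) Φ = 0 →
      ∀ y : Fin l → ℂ, aeval (Sum.elim x y) Φ = 0)
    (P : Fin m → MvPolynomial (Fin k ⊕ (Fin l ⊕ Fin m)) K)
    (h0 : ∀ i, aeval (pt x z α) (P i) = 0) (hJ : aeval (pt x z α) (Jac P).det ≠ 0) (j : Fin l)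
    (Φ : MvPolynomial (Fin k ⊕ (Fin l ⊕ Fin m)) K) (hΦ : aeval (pt x z α) Φ = 0) :
    aeval (pt x z α) (DD P j Φ) = 0 := by
  classical
  obtain ⟨d, hdx, hdz⟩ := exists_ders x z (algInd_field x z (algInd_of x z hz)) j
  have hd : ∀ Ψ : MvPolynomial (Fin k ⊕ (Fin l ⊕ Fin m)) K, d (aeval (pt x z α) Ψ) =
      aeval (pt x z α) (pderiv (Sum.inr (Sum.inl j)) Ψ) +
        ∑ i, aeval (pt x z α) (pderiv (Sum.inr (Sum.inr i)) Ψ) * d (α i) := by
    intro Ψ
    rw [der_aeval, Fintype.sum_sum_type, Fintype.sum_sum_type]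
    have h1 : ∑ i, aeval (pt x z α) (pderiv (Sum.inl i) Ψ) * d (pt x z α (Sum.inl i)) = 0 :=
      Finset.sum_eq_zero fun i _ => by
        change _ * d (x i) = 0
        rw [hdx, mul_zero]
    have h2 : ∑ i, aeval (pt x z α) (pderiv (Sum.inr (Sum.inl i)) Ψ) *
        d (pt x z α (Sum.inr (Sum.inl i))) =
        aeval (pt x z α) (pderiv (Sum.inr (Sum.inl j)) Ψ) := by
      rw [Finset.sum_eq_single j]
      · change _ * d (z j) = _
        rw [hdz, if_pos rfl, mul_one]
      · intro i _ hi
        change _ * d (z i) = 0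
        rw [hdz, if_neg hi, mul_zero]
      · exact fun h => absurd (Finset.mem_univ _) h
    rw [h1, h2, zero_add]
    rfl
  -- the derivatives of `α`
  have hα : ∀ i, aeval (pt x z α) (Jac P).det * d (α i) =
      - ∑ i', aeval (pt x z α) ((Jac P).adjugate i i') *
        aeval (pt x z α) (pderiv (Sum.inr (Sum.inl j)) (P i')) := by
    intro i
    have h1 : ∀ i', aeval (pt x z α) (pderiv (Sum.inr (Sum.inl j)) (P i')) =
        - ∑ i'', aeval (pt x z α) (Jac P i' i'') * d (α i'') := by
      intro i'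
      have h2 := hd (P i')
      rw [h0, map_zero] at h2
      rw [eq_neg_iff_add_eq_zero]
      exact h2.symm
    simp only [h1, mul_neg, Finset.sum_neg_distrib, neg_neg, Finset.mul_sum]
    rw [Finset.sum_comm]
    have h3 : ∀ i'', ∑ i', aeval (pt x z α) ((Jac P).adjugate i i') *
        (aeval (pt x z α) (Jac P i' i'') * d (α i'')) =
        aeval (pt x z α) (if i = i'' then (Jac P).det else 0) * d (α i'') := by
      intro i''
      have h4 : ∑ i', (Jac P).adjugate i i' * Jac P i' i'' = if i = i'' then (Jac P).det else 0 := by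
        rw [← Matrix.mul_apply, Matrix.adjugate_mul, Matrix.smul_apply, Matrix.one_apply]
        split_ifs <;> simp
      rw [← h4, map_sum, Finset.sum_mul]
      exact Finset.sum_congr rfl fun i' _ => by rw [map_mul]; ring
    rw [Finset.sum_congr rfl fun i'' _ => h3 i'', Finset.sum_eq_single i]
    · rw [if_pos rfl]
    · intro b _ hb
      rw [if_neg (Ne.symm hb), map_zero, zero_mul]
    · exact fun h => absurd (Finset.mem_univ _) h
  have h5 := hd Φ
  rw [hΦ, map_zero] at h5
  unfold DD
  rw [map_sub, map_mul, map_sum]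
  have h6 : ∑ i, aeval (pt x z α) ((∑ i', (Jac P).adjugate i i' *
      pderiv (Sum.inr (Sum.inl j)) (P i')) * pderiv (Sum.inr (Sum.inr i)) Φ) =
      - ∑ i, aeval (pt x z α) (Jac P).det *
        (aeval (pt x z α) (pderiv (Sum.inr (Sum.inr i)) Φ) * d (α i)) := by
    rw [← Finset.sum_neg_distrib]
    refine Finset.sum_congr rfl fun i _ => ?_
    have h7 := hα i
    rw [map_mul, map_sum]
    simp only [map_mul]
    have h8 : ∑ i', aeval (pt x z α) ((Jac P).adjugate i i') *
        aeval (pt x z α) (pderiv (Sum.inr (Sum.inl j)) (P i')) =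
        - (aeval (pt x z α) (Jac P).det * d (α i)) := by
      rw [h7, neg_neg]
    rw [h8]
    ring
  rw [h6, sub_neg_eq_add, ← Finset.mul_sum, ← mul_add, ← h5, mul_zero]

end Pool.Agent.FNG
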