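import Mathlib

/-! (B), the one-variable part: a family of functions of one complex variable, closed under
`w * d/dt` up to finite linear combinations and vanishing at `0`, is zero. -/

namespace Pool.Agent.FNG

open Filter Topology

theorem order_sum {ι κ : Type*} (f : ι → ℂ → ℂ) (c : κ → ℂ) (J : κ → ι) (n : ℕ)
    (hf : ∀ i, AnalyticAt ℂ (f i) 0) (h : ∀ i, (n : ℕ∞) ≤ analyticOrderAt (f i) 0)
    (s : Finset κ) :
    AnalyticAt ℂ (fun t => ∑ j ∈ s, c j * f (J j) t) 0 ∧
      (n : ℕ∞) ≤ analyticOrderAt (fun t => ∑ j ∈ s, c j * f (J j) t) 0 := by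
  classical
  induction s using Finset.induction_on with
  | empty =>
    constructor
    · simp only [Finset.sum_empty]
      exact analyticAt_const
    · have : analyticOrderAt (fun t : ℂ => ∑ j ∈ (∅ : Finset κ), c j * f (J j) t) 0 = ⊤ := by
        rw [analyticOrderAt_eq_top]
        exact Eventually.of_forall fun t => by simp
      rw [this]; exact le_top
  | insert a s ha ih =>
    have e : (fun t => ∑ j ∈ insert a s, c j * f (J j) t) =
        (fun t => c a * f (J a) t) + (fun t => ∑ j ∈ s, c j * f (J j) t) := by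
      funext t
      simp [Finset.sum_insert ha]
    have hc : AnalyticAt ℂ (fun t => c a * f (J a) t) 0 := analyticAt_const.mul (hf (J a))
    have ho : (n : ℕ∞) ≤ analyticOrderAt (fun t => c a * f (J a) t) 0 := by
      have : (fun t => c a * f (J a) t) = (fun _ : ℂ => c a) * f (J a) := rfl
      rw [this, analyticOrderAt_mul analyticAt_const (hf (J a))]
      exact le_trans (h (J a)) le_add_self
    rw [e]
    exact ⟨hc.add ih.1, le_trans (le_min ho ih.2) le_analyticOrderAt_add⟩

theorem line_zero {ι : Type*} (f : ι → ℂ → ℂ) (w : ℂ → ℂ) (U : Set ℂ) (hU : IsOpen U)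
    (hc : Convex ℝ U) (h0 : (0 : ℂ) ∈ U) (hf : ∀ i, DifferentiableOn ℂ (f i) U)
    (hw : ∀ t ∈ U, w t ≠ 0) (hwd : DifferentiableOn ℂ w U) (hz : ∀ i, f i 0 = 0)
    (hD : ∀ i, ∃ (n : ℕ) (c : Fin n → ℂ) (J : Fin n → ι), ∀ t ∈ U,
      w t * deriv (f i) t = ∑ j, c j * f (J j) t) :
    ∀ i, ∀ t ∈ U, f i t = 0 := by
  have hfa : ∀ i, AnalyticOnNhd ℂ (f i) U := fun i => (hf i).analyticOnNhd hU
  have hwa : AnalyticAt ℂ w 0 := hwd.analyticOnNhd hU 0 h0
  have key : ∀ n : ℕ, ∀ i, (n : ℕ∞) ≤ analyticOrderAt (f i) 0 := by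
    intro n
    induction n with
    | zero => intro i; simp
    | succ n ih =>
      intro i
      obtain ⟨N, c, J, hs⟩ := hD i
      have ha : AnalyticAt ℂ (f i) 0 := hfa i 0 h0
      have h1 : analyticOrderAt (deriv (f i)) 0 + 1 = analyticOrderAt (f i) 0 := by
        have := ha.analyticOrderAt_deriv_add_one
        simpa [hz i] using this
      have h2 : analyticOrderAt (w * deriv (f i)) 0 = analyticOrderAt (deriv (f i)) 0 := by
        rw [analyticOrderAt_mul hwa ha.deriv, hwa.analyticOrderAt_eq_zero.2 (hw 0 h0), zero_add]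
      have h3 : analyticOrderAt (w * deriv (f i)) 0 =
          analyticOrderAt (fun t => ∑ j, c j * f (J j) t) 0 := by
        refine analyticOrderAt_congr ?_
        filter_upwards [hU.mem_nhds h0] with t ht
        exact hs t ht
      have h4 := (order_sum f c J n (fun j => hfa j 0 h0) ih Finset.univ).2
      rw [← h3, h2] at h4
      rw [← h1]
      push_cast
      exact add_le_add h4 le_rfl
  intro i
  have htop : analyticOrderAt (f i) 0 = ⊤ := by
    refine ENat.eq_top_iff_forall_ge.2 fun n => key n i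
  have hev : ∀ᶠ t in 𝓝 (0 : ℂ), f i t = 0 := analyticOrderAt_eq_top.1 htop
  exact fun t ht =>
    (hfa i).eqOn_zero_of_preconnected_of_eventuallyEq_zero hc.isPreconnected h0 hev ht

end Pool.Agent.FNG
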