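import Pool.Agent.FNG.Def
import Pool.Agent.FNG.Line

/-! # Generic points: functions with all derivatives zero -/

set_option autoImplicit false

namespace Pool.Agent.FNG

open MvPolynomial

/-- the derivative of a polynomial along a curve -/
theorem hasDerivAt_aeval {K : Type} [Field K] [Algebra K ℂ] {σ : Type} [Fintype σ]
    (Φ : MvPolynomial σ K) (c : ℂ → σ → ℂ) (c' : σ → ℂ) (t : ℂ)
    (h : ∀ i, HasDerivAt (fun t => c t i) (c' i) t) :
    HasDerivAt (fun t => aeval (c t) Φ) (∑ i, aeval (c t) (pderiv i Φ) * c' i) t := by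
  classical
  induction Φ using MvPolynomial.induction_on with
  | C a =>
    simp only [aeval_C, pderiv_C, map_zero, zero_mul, Finset.sum_const_zero]
    exact hasDerivAt_const _ _
  | add p q hp hq =>
    simp only [map_add, add_mul, Finset.sum_add_distrib]
    exact hp.add hq
  | mul_X p i hp =>
    have h1 := hp.mul (h i)
    have h2 : ∀ j, aeval (c t) (pderiv j (p * X i)) * c' j =
        aeval (c t) (pderiv j p) * c' j * c t i +
          if j = i then aeval (c t) p * c' i else 0 := by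
      intro j
      rw [Derivation.leibniz, smul_eq_mul, smul_eq_mul, map_add, map_mul, map_mul, aeval_X,
        pderiv_X]
      by_cases hj : j = i
      · subst hj
        rw [if_pos rfl, Pi.single_eq_same, map_one]
        ring
      · rw [if_neg hj, Pi.single_eq_of_ne (Ne.symm hj), map_zero]
        ring
    rw [Finset.sum_congr rfl fun j _ => h2 j, Finset.sum_add_distrib, ← Finset.sum_mul,
      Finset.sum_ite_eq' Finset.univ i, if_pos (Finset.mem_univ i)]
    refine h1.congr_of_eventuallyEq (Filter.Eventually.of_forall fun s => ?_)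
    change aeval (c s) (p * X i) = aeval (c s) p * c s i
    rw [map_mul, aeval_X]

section

variable {K : Type} [Field K] [Algebra K ℂ] {k l m : ℕ}

/-- along a curve in `P = 0` with direction `v` in the variables `Y` -/
theorem deriv_curve (x : Fin k → ℂ) (P : Fin m → MvPolynomial (Fin k ⊕ (Fin l ⊕ Fin m)) K)
    (Y : ℂ → Fin l → ℂ) (Z : ℂ → Fin m → ℂ) (v : Fin l → ℂ) (d : Fin m → ℂ) (t : ℂ)
    (hY : ∀ j, HasDerivAt (fun t => Y t j) (v j) t) (hZ : ∀ i, HasDerivAt (fun t => Z t i) (d i) t)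
    (hP : ∀ i, ∀ᶠ s in nhds t, aeval (pt x (Y s) (Z s)) (P i) = 0)
    (Φ : MvPolynomial (Fin k ⊕ (Fin l ⊕ Fin m)) K) :
    aeval (pt x (Y t) (Z t)) (Jac P).det * deriv (fun s => aeval (pt x (Y s) (Z s)) Φ) t =
      ∑ j, v j * aeval (pt x (Y t) (Z t)) (DD P j Φ) := by
  classical
  have hc : ∀ i, HasDerivAt (fun s => pt x (Y s) (Z s) i)
      (pt (0 : Fin k → ℂ) v d i) t := by
    rintro (i | j | i)
    · exact hasDerivAt_const _ _
    · exact hY j
    · exact hZ i
  have hder : ∀ Q : MvPolynomial (Fin k ⊕ (Fin l ⊕ Fin m)) K,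
      HasDerivAt (fun s => aeval (pt x (Y s) (Z s)) Q)
        (∑ j, aeval (pt x (Y t) (Z t)) (pderiv (Sum.inr (Sum.inl j)) Q) * v j +
          ∑ i, aeval (pt x (Y t) (Z t)) (pderiv (Sum.inr (Sum.inr i)) Q) * d i) t := by
    intro Q
    have h1 := hasDerivAt_aeval Q (fun s => pt x (Y s) (Z s)) _ t hc
    rw [Fintype.sum_sum_type, Fintype.sum_sum_type] at h1
    simp only [pt, Sum.elim_inl, Sum.elim_inr, Pi.zero_apply, mul_zero, Finset.sum_const_zero,
      zero_add] at h1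
    exact h1
  -- the derivative of the equations
  have h0 : ∀ i', ∑ j, aeval (pt x (Y t) (Z t)) (pderiv (Sum.inr (Sum.inl j)) (P i')) * v j +
      ∑ i, aeval (pt x (Y t) (Z t)) (Jac P i' i) * d i = 0 := by
    intro i'
    have h1 := hder (P i')
    have h2 : HasDerivAt (fun s => aeval (pt x (Y s) (Z s)) (P i')) 0 t :=
      (hasDerivAt_const t (0 : ℂ)).congr_of_eventuallyEq (hP i')
    exact h1.unique h2
  set e : MvPolynomial (Fin k ⊕ (Fin l ⊕ Fin m)) K →+* ℂ :=
    ((aeval (pt x (Y t) (Z t)) : MvPolynomial (Fin k ⊕ (Fin l ⊕ Fin m)) K →ₐ[K] ℂ) :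
      MvPolynomial (Fin k ⊕ (Fin l ⊕ Fin m)) K →+* ℂ) with he
  have hee : ∀ Q, aeval (pt x (Y t) (Z t)) Q = e Q := fun Q => rfl
  -- Cramer
  have h3 : ∀ i, e (Jac P).det * d i = -∑ i', e ((Jac P).adjugate i i') *
      ∑ j, e (pderiv (Sum.inr (Sum.inl j)) (P i')) * v j := by
    intro i
    have h4 : ((Jac P).adjugate * Jac P) = (Jac P).det • (1 : Matrix (Fin m) (Fin m) _) :=
      Matrix.adjugate_mul _
    have h5 : ∀ i'', ∑ i', e ((Jac P).adjugate i i') * e (Jac P i' i'') =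
        if i = i'' then e (Jac P).det else 0 := by
      intro i''
      have h6 := congrArg e (congrFun (congrFun h4 i) i'')
      rw [Matrix.mul_apply, map_sum, Matrix.smul_apply, Matrix.one_apply, smul_eq_mul] at h6
      rw [← Finset.sum_congr rfl fun i' _ => map_mul e _ _, h6]
      split_ifs
      · rw [mul_one]
      · rw [mul_zero, map_zero]
    have h7 : e (Jac P).det * d i = ∑ i', e ((Jac P).adjugate i i') *
        ∑ i'', e (Jac P i' i'') * d i'' := by
      simp only [Finset.mul_sum]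
      rw [Finset.sum_comm]
      simp only [← mul_assoc, ← Finset.sum_mul, h5]
      simp
    rw [h7, ← Finset.sum_neg_distrib]
    refine Finset.sum_congr rfl fun i' _ => ?_
    have h8 := h0 i'
    simp only [hee] at h8
    rw [← mul_neg]
    congr 1
    linear_combination h8
  rw [(hder Φ).deriv]
  simp only [hee, DD, map_sub, map_mul, map_sum]
  rw [mul_add]
  have h9 : e (Jac P).det * ∑ i, e (pderiv (Sum.inr (Sum.inr i)) Φ) * d i =
      ∑ j, v j * -∑ i, (∑ i', e ((Jac P).adjugate i i') *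
        e (pderiv (Sum.inr (Sum.inl j)) (P i'))) * e (pderiv (Sum.inr (Sum.inr i)) Φ) := by
    have h10 : ∀ i, e (Jac P).det * (e (pderiv (Sum.inr (Sum.inr i)) Φ) * d i) =
        ∑ j, v j * -((∑ i', e ((Jac P).adjugate i i') *
          e (pderiv (Sum.inr (Sum.inl j)) (P i'))) * e (pderiv (Sum.inr (Sum.inr i)) Φ)) := by
      intro i
      rw [show e (Jac P).det * (e (pderiv (Sum.inr (Sum.inr i)) Φ) * d i) =
        e (pderiv (Sum.inr (Sum.inr i)) Φ) * (e (Jac P).det * d i) by ring, h3 i]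
      simp only [Finset.mul_sum, Finset.sum_mul, mul_neg, Finset.sum_neg_distrib]
      rw [Finset.sum_comm]
      congr 1
      refine Finset.sum_congr rfl fun j _ => Finset.sum_congr rfl fun i' _ => ?_
      ring
    rw [Finset.mul_sum, Finset.sum_congr rfl fun i _ => h10 i, Finset.sum_comm]
    refine Finset.sum_congr rfl fun j _ => ?_
    rw [← Finset.mul_sum, Finset.sum_neg_distrib]
  rw [h9, Finset.mul_sum, ← Finset.sum_add_distrib]
  refine Finset.sum_congr rfl fun j _ => ?_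
  ring

theorem analytic_pt (x : Fin k → ℂ) (Φ : MvPolynomial (Fin k ⊕ (Fin l ⊕ Fin m)) K)
    (u : (Fin l → ℂ) × (Fin m → ℂ)) :
    AnalyticAt ℂ (fun q : (Fin l → ℂ) × (Fin m → ℂ) => aeval (pt x q.1 q.2) Φ) u := by
  refine AnalyticAt.aeval_mvPolynomial ?_ _
  rintro (i | j | i)
  · exact analyticAt_const
  · exact ((ContinuousLinearMap.proj (R := ℂ) (φ := fun _ : Fin l => ℂ) j).comp
      (ContinuousLinearMap.fst ℂ (Fin l → ℂ) (Fin m → ℂ))).analyticAt u
  · exact ((ContinuousLinearMap.proj (R := ℂ) (φ := fun _ : Fin m => ℂ) i).comp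
      (ContinuousLinearMap.snd ℂ (Fin l → ℂ) (Fin m → ℂ))).analyticAt u

/-- the equations as a map -/
theorem contDiff_sys (x : Fin k → ℂ) (P : Fin m → MvPolynomial (Fin k ⊕ (Fin l ⊕ Fin m)) K)
    (u : (Fin l → ℂ) × (Fin m → ℂ)) (n : WithTop ℕ∞) :
    ContDiffAt ℂ n (fun q : (Fin l → ℂ) × (Fin m → ℂ) => fun i =>
      aeval (pt x q.1 q.2) (P i)) u := by
  rw [contDiffAt_pi]
  exact fun i => (analytic_pt x (P i) u).contDiffAt

/-- the derivative in the variables `Z` is invertible -/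
theorem inv_sys (x : Fin k → ℂ) (y : Fin l → ℂ) (β : Fin m → ℂ)
    (P : Fin m → MvPolynomial (Fin k ⊕ (Fin l ⊕ Fin m)) K)
    (hJ : aeval (pt x y β) (Jac P).det ≠ 0) :
    (fderiv ℂ (fun q : (Fin l → ℂ) × (Fin m → ℂ) => fun i => aeval (pt x q.1 q.2) (P i)) (y, β) ∘L
      ContinuousLinearMap.inr ℂ (Fin l → ℂ) (Fin m → ℂ)).IsInvertible := by
  classical
  set f : (Fin l → ℂ) × (Fin m → ℂ) → Fin m → ℂ :=
    fun q => fun i => aeval (pt x q.1 q.2) (P i) with hf
  have hd : DifferentiableAt ℂ f (y, β) :=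
    (contDiff_sys x P (y, β) 1).differentiableAt (by norm_num)
  have h1 : ∀ (w : Fin m → ℂ) (i : Fin m), fderiv ℂ f (y, β) (0, w) i =
      ∑ i', aeval (pt x y β) (Jac P i i') * w i' := by
    intro w i
    have hc : HasDerivAt (fun t : ℂ => ((y, β + t • w) : (Fin l → ℂ) × (Fin m → ℂ)))
        (0, w) 0 := by
      refine HasDerivAt.prodMk (hasDerivAt_const _ _) ?_
      have h2 := ((hasDerivAt_id (0 : ℂ)).smul_const w).const_add β
      rw [one_smul] at h2
      exact h2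
    have hd' : HasFDerivAt f (fderiv ℂ f (y, β))
        ((fun t : ℂ => ((y, β + t • w) : (Fin l → ℂ) × (Fin m → ℂ))) 0) := by
      simp only [zero_smul, add_zero]
      exact hd.hasFDerivAt
    have h2 := hd'.comp_hasDerivAt (0 : ℂ) hc
    rw [hasDerivAt_pi] at h2
    have h3 := h2 i
    have hc' : ∀ i, HasDerivAt (fun s : ℂ => pt x y (β + s • w) i)
        (pt (0 : Fin k → ℂ) (0 : Fin l → ℂ) w i) 0 := by
      rintro (i | j | i)
      · exact hasDerivAt_const _ _
      · exact hasDerivAt_const _ _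
      · have h4 := ((hasDerivAt_id (0 : ℂ)).mul_const (w i)).const_add (β i)
        rw [one_mul] at h4
        exact h4
    have h4 := hasDerivAt_aeval (P i) (fun s : ℂ => pt x y (β + s • w)) _ 0 hc'
    have h5 := h3.unique h4
    rw [h5, Fintype.sum_sum_type, Fintype.sum_sum_type]
    simp only [pt, Sum.elim_inl, Sum.elim_inr, Pi.zero_apply, mul_zero, Finset.sum_const_zero,
      zero_add, zero_smul, add_zero]
    rfl
  let L : (Fin m → ℂ) →ₗ[ℂ] (Fin m → ℂ) := (fderiv ℂ f (y, β) ∘L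
      ContinuousLinearMap.inr ℂ (Fin l → ℂ) (Fin m → ℂ) : (Fin m → ℂ) →L[ℂ] (Fin m → ℂ))
  have hLi : Function.Injective L := by
    rw [injective_iff_map_eq_zero]
    intro w hw
    have h2 : (Matrix.of fun i i' => aeval (pt x y β) (Jac P i i')).mulVec w = 0 := by
      funext i
      have h3 := h1 w i
      have h4 : fderiv ℂ f (y, β) (0, w) = 0 := hw
      rw [h4] at h3
      exact h3.symm
    refine Matrix.eq_zero_of_mulVec_eq_zero ?_ h2
    rw [AlgHom.map_det] at hJ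
    exact hJ
  refine ⟨(LinearEquiv.ofInjectiveEndo L hLi).toContinuousLinearEquiv, ?_⟩
  ext w : 1
  rfl

end

/-- polynomials with all derivatives along `P = 0` in a set of polynomials which vanish at a point
vanish on `P = 0` near the point -/
theorem vanish_near {K : Type} [Field K] [Algebra K ℂ] {k l m : ℕ}
    (x : Fin k → ℂ) (y : Fin l → ℂ) (β : Fin m → ℂ)
    (P : Fin m → MvPolynomial (Fin k ⊕ (Fin l ⊕ Fin m)) K)
    (h0 : ∀ i, aeval (pt x y β) (P i) = 0) (hJ : aeval (pt x y β) (Jac P).det ≠ 0)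
    (I : Set (MvPolynomial (Fin k ⊕ (Fin l ⊕ Fin m)) K)) (hI : ∀ Φ ∈ I, ∀ j, DD P j Φ ∈ I)
    (hv : ∀ Φ ∈ I, aeval (pt x y β) Φ = 0) :
    ∀ Φ ∈ I, ∀ᶠ q : (Fin l → ℂ) × (Fin m → ℂ) in nhds (y, β),
      (∀ i, aeval (pt x q.1 q.2) (P i) = 0) → aeval (pt x q.1 q.2) Φ = 0 := by
  classical
  set f : (Fin l → ℂ) × (Fin m → ℂ) → Fin m → ℂ :=
    fun q => fun i => aeval (pt x q.1 q.2) (P i) with hf
  have hcd : ContDiffAt ℂ 1 f (y, β) := contDiff_sys x P (y, β) 1
  have hinv := inv_sys x y β P hJ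
  have h10 : (1 : WithTop ℕ∞) ≠ 0 := one_ne_zero
  set ψ : (Fin l → ℂ) → (Fin m → ℂ) := hcd.implicitFunction h10 hinv with hψ
  have hψ0 : ψ y = β := hcd.implicitFunction_apply_self h10 hinv
  have hfu : f (y, β) = 0 := funext h0
  have hψ1 : ∀ᶠ y' in nhds y, f (y', ψ y') = f (y, β) :=
    hcd.eventually_apply_implicitFunction h10 hinv
  have hψ2 : ∀ᶠ q in nhds (y, β), f q = f (y, β) ↔ ψ q.1 = q.2 :=
    hcd.eventually_apply_eq_iff_implicitFunction h10 hinv
  have hψc : ContDiffAt ℂ 1 ψ y := hcd.contDiffAt_implicitFunction h10 hinv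
  have hψ3 : ∀ᶠ y' in nhds y, ContDiffAt ℂ 1 ψ y' := hψc.eventually (by norm_num)
  have hψ4 : ∀ᶠ y' in nhds y, aeval (pt x y' (ψ y')) (Jac P).det ≠ 0 := by
    have h1 : ContinuousAt (fun y' => ((y', ψ y') : (Fin l → ℂ) × (Fin m → ℂ))) y :=
      continuousAt_id.prodMk hψc.continuousAt
    have h2 : ContinuousAt (fun y' => aeval (pt x y' (ψ y')) (Jac P).det) y := by
      refine ContinuousAt.comp (f := fun y' => ((y', ψ y') : (Fin l → ℂ) × (Fin m → ℂ)))
        (g := fun q : (Fin l → ℂ) × (Fin m → ℂ) => aeval (pt x q.1 q.2) (Jac P).det) ?_ h1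
      exact (analytic_pt x _ _).continuousAt
    refine h2.eventually_ne ?_
    rw [hψ0]
    exact hJ
  obtain ⟨r, hr, hball⟩ := Metric.eventually_nhds_iff_ball.1 ((hψ1.and hψ3).and hψ4)
  have hb1 : ∀ y' ∈ Metric.ball y r, ∀ i, aeval (pt x y' (ψ y')) (P i) = 0 := by
    intro y' hy' i
    have h1 := (hball y' hy').1.1
    rw [hfu] at h1
    exact congrFun h1 i
  have hb2 : ∀ y' ∈ Metric.ball y r, DifferentiableAt ℂ ψ y' := fun y' hy' =>
    (hball y' hy').1.2.differentiableAt (by norm_num)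
  have hb3 : ∀ y' ∈ Metric.ball y r, aeval (pt x y' (ψ y')) (Jac P).det ≠ 0 :=
    fun y' hy' => (hball y' hy').2
  have hnear : ∀ᶠ q : (Fin l → ℂ) × (Fin m → ℂ) in nhds (y, β), q.1 ∈ Metric.ball y r :=
    continuousAt_fst.eventually (Metric.ball_mem_nhds y hr)
  intro Φ hΦ
  filter_upwards [hψ2, hnear] with q hq1 hq2 hqP
  have hq3 : ψ q.1 = q.2 := hq1.1 (by rw [hfu]; exact funext hqP)
  set v : Fin l → ℂ := q.1 - y with hvdef
  let lin : ℂ →ₗ[ℂ] (Fin l → ℂ) := LinearMap.toSpanSingleton ℂ (Fin l → ℂ) v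
  let U : Set ℂ := (lin.restrictScalars ℝ) ⁻¹' Metric.ball 0 r
  have hUmem : ∀ t, t ∈ U ↔ ‖t • v‖ < r := by
    intro t
    change t • v ∈ Metric.ball 0 r ↔ _
    rw [mem_ball_zero_iff]
  have hUb : ∀ t ∈ U, y + t • v ∈ Metric.ball y r := by
    intro t ht
    rw [Metric.mem_ball, dist_eq_norm, add_sub_cancel_left]
    exact (hUmem t).1 ht
  have hUo : IsOpen U := by
    have h1 : U = {t : ℂ | ‖t • v‖ < r} := Set.ext hUmem
    rw [h1]
    exact isOpen_lt (by fun_prop) continuous_const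
  have hUc : Convex ℝ U := (convex_ball (0 : Fin l → ℂ) r).linear_preimage _
  have hU0 : (0 : ℂ) ∈ U := by
    rw [hUmem, zero_smul, norm_zero]
    exact hr
  have hU1 : (1 : ℂ) ∈ U := by
    rw [hUmem, one_smul, hvdef, ← dist_eq_norm]
    exact hq2
  -- the curve
  let Y : ℂ → Fin l → ℂ := fun t => y + t • v
  let Z : ℂ → Fin m → ℂ := fun t => ψ (y + t • v)
  have hYd : ∀ t j, HasDerivAt (fun t => Y t j) (v j) t := by
    intro t j
    have h4 := ((hasDerivAt_id t).mul_const (v j)).const_add (y j)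
    rw [one_mul] at h4
    exact h4
  have hYv : ∀ t, HasDerivAt Y v t := by
    intro t
    rw [hasDerivAt_pi]
    exact hYd t
  have hZd : ∀ t ∈ U, ∃ d : Fin m → ℂ, ∀ i, HasDerivAt (fun t => Z t i) (d i) t := by
    intro t ht
    have h1 := ((hb2 _ (hUb t ht)).hasFDerivAt).comp_hasDerivAt t (hYv t)
    rw [hasDerivAt_pi] at h1
    exact ⟨_, h1⟩
  have hP0 : ∀ t ∈ U, ∀ i, ∀ᶠ s in nhds t, aeval (pt x (Y s) (Z s)) (P i) = 0 := by
    intro t ht i
    filter_upwards [hUo.mem_nhds ht] with s hs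
    exact hb1 _ (hUb s hs) i
  have hdiff : ∀ Ψ : MvPolynomial (Fin k ⊕ (Fin l ⊕ Fin m)) K,
      DifferentiableOn ℂ (fun s => aeval (pt x (Y s) (Z s)) Ψ) U := by
    intro Ψ t ht
    obtain ⟨d, hd⟩ := hZd t ht
    have hc : ∀ i, HasDerivAt (fun s => pt x (Y s) (Z s) i)
        (pt (0 : Fin k → ℂ) v d i) t := by
      rintro (i | j | i)
      · exact hasDerivAt_const _ _
      · exact hYd t j
      · exact hd i
    exact (hasDerivAt_aeval Ψ (fun s => pt x (Y s) (Z s)) _ t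
      hc).differentiableAt.differentiableWithinAt
  have hfin := line_zero (ι := {Ψ // Ψ ∈ I}) (fun Ψ s => aeval (pt x (Y s) (Z s)) Ψ.1)
    (fun s => aeval (pt x (Y s) (Z s)) (Jac P).det) U hUo hUc hU0 (fun Ψ => hdiff Ψ.1)
    (fun t ht => hb3 _ (hUb t ht)) (hdiff _) (fun Ψ => by
      change aeval (pt x (y + (0 : ℂ) • v) (ψ (y + (0 : ℂ) • v))) Ψ.1 = 0
      rw [zero_smul, add_zero, hψ0]
      exact hv _ Ψ.2) (fun Ψ => ⟨l, v, fun j => ⟨DD P j Ψ.1, hI _ Ψ.2 j⟩, fun t ht => by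
        obtain ⟨d, hd⟩ := hZd t ht
        exact deriv_curve x P Y Z v d t (hYd t) hd (hP0 t ht) Ψ.1⟩) ⟨Φ, hΦ⟩ 1 hU1
  have h1 : aeval (pt x (y + (1 : ℂ) • v) (ψ (y + (1 : ℂ) • v))) Φ = 0 := hfin
  rw [one_smul, hvdef, add_sub_cancel, hq3] at h1
  exact h1

end Pool.Agent.FNG
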