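import Pool.Agent.FNG.GenRelOf
import Pool.Agent.FNG.Part
import Pool.Agent.FNG.Vanish

/-! # Generic points: the relation of bounded size -/

set_option autoImplicit false

namespace Pool.Agent.FNG

open MvPolynomial Pool.Agent.FN Pool.Agent.FNX

/-- (C): a point which is not generic has a relation of bounded size -/
theorem gen_rel (k l s : ℕ) : ∃ D : ℕ, ∀ δ : Derivation KA ℂ ℂ, CK δ →
    ∀ (x : Fin k → ℂ) (z : Fin l → ℂ), (∀ y, Spz δ (Fin.append x z) (Fin.append x y)) →
      ∀ y : Fin l → ℂ, ¬ GenY KA s x y → RelV δ D (Fin.append x z) (Fin.append x y) :=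
  gen_rel_of (fun x z α hz P h0 hJ j Φ hΦ => part_stable x z α hz P h0 hJ j Φ hΦ)
    (fun x y β P h0 hJ I hI hv => vanish_near x y β P h0 hJ I hI hv) k l s

end Pool.Agent.FNG
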