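import Pool.Agent.FNG.Def
import Pool.Agent.FNY.Sblock
import Pool.Agent.FNS.Entry
import Pool.Agent.FN.Main

/-! # Generic points: the relation -/

set_option autoImplicit false

namespace Pool.Agent.FNG

open MvPolynomial Pool.Agent.FN Pool.Agent.FNX Pool.Agent.FNR Pool.Agent.FNS Pool.Agent.FNY

section

variable {K L : Type} [Field K] [Field L] [Algebra K L]

/-- polynomial relations specialize -/
theorem spz_pol {δ : Derivation K L L} {N : ℕ} {a b : Fin N → L} (h : Spz δ a b)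
    (f : MvPolynomial (Fin N) K) (hf : aeval a f = 0) : aeval b f = 0 := by
  have key : ∀ c : Fin N → L, aeval (jet δ c) (rename (fun i : Fin N => (i, 0)) f) = aeval c f :=
    fun c => by
      rw [aeval_rename]
      rfl
  have h1 := h (rename (fun i : Fin N => (i, 0)) f) (by rw [key]; exact hf)
  rwa [key] at h1

/-- the variables as entries of one tuple -/
def toF (k l m : ℕ) : Fin k ⊕ (Fin l ⊕ Fin m) → Fin (k + l + m) :=
  Sum.elim (fun i => Fin.castAdd m (Fin.castAdd l i))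
    (Sum.elim (fun i => Fin.castAdd m (Fin.natAdd k i)) (fun i => Fin.natAdd (k + l) i))

/-- the variables, the first two kinds together -/
def toS (k l m : ℕ) : Fin k ⊕ (Fin l ⊕ Fin m) → Fin (k + l) ⊕ Fin m :=
  Sum.elim (fun i => Sum.inl (Fin.castAdd l i))
    (Sum.elim (fun i => Sum.inl (Fin.natAdd k i)) (fun i => Sum.inr i))

theorem toS_inj (k l m : ℕ) : Function.Injective (toS k l m) := by
  rintro (i | i | i) (j | j | j) h
  · have h1 : (Sum.inl (Fin.castAdd l i) : Fin (k + l) ⊕ Fin m) = Sum.inl (Fin.castAdd l j) := h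
    have h2 := congrArg Fin.val (Sum.inl.inj h1)
    exact congrArg Sum.inl (Fin.ext h2)
  · exfalso
    have h1 : (Sum.inl (Fin.castAdd l i) : Fin (k + l) ⊕ Fin m) = Sum.inl (Fin.natAdd k j) := h
    have h2 := congrArg Fin.val (Sum.inl.inj h1)
    rw [Fin.val_castAdd, Fin.val_natAdd] at h2
    omega
  · exact absurd h Sum.inl_ne_inr
  · exfalso
    have h1 : (Sum.inl (Fin.natAdd k i) : Fin (k + l) ⊕ Fin m) = Sum.inl (Fin.castAdd l j) := h
    have h2 := congrArg Fin.val (Sum.inl.inj h1)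
    rw [Fin.val_castAdd, Fin.val_natAdd] at h2
    omega
  · have h1 : (Sum.inl (Fin.natAdd k i) : Fin (k + l) ⊕ Fin m) = Sum.inl (Fin.natAdd k j) := h
    have h2 := congrArg Fin.val (Sum.inl.inj h1)
    rw [Fin.val_natAdd, Fin.val_natAdd] at h2
    exact congrArg (fun t => Sum.inr (Sum.inl t)) (Fin.ext (by omega))
  · exact absurd h Sum.inl_ne_inr
  · exact absurd h Sum.inr_ne_inl
  · exact absurd h Sum.inr_ne_inl
  · exact congrArg (fun t => Sum.inr (Sum.inr t)) (Sum.inr.inj h)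

theorem aeval_toF {k l m : ℕ} (x : Fin k → L) (y : Fin l → L) (β : Fin m → L)
    (f : MvPolynomial (Fin k ⊕ (Fin l ⊕ Fin m)) K) :
    aeval (Fin.append (Fin.append x y) β) (rename (toF k l m) f) = aeval (pt x y β) f := by
  rw [aeval_rename]
  congr 2
  funext v
  rcases v with i | i | i
  · change Fin.append (Fin.append x y) β (Fin.castAdd m (Fin.castAdd l i)) = x i
    rw [Fin.append_left, Fin.append_left]
  · change Fin.append (Fin.append x y) β (Fin.castAdd m (Fin.natAdd k i)) = y i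
    rw [Fin.append_left, Fin.append_right]
  · change Fin.append (Fin.append x y) β (Fin.natAdd (k + l) i) = β i
    rw [Fin.append_right]

theorem aeval_toS {k l m : ℕ} (x : Fin k → L) (y : Fin l → L) (β : Fin m → L)
    (f : MvPolynomial (Fin k ⊕ (Fin l ⊕ Fin m)) K) :
    aeval (Sum.elim (Fin.append x y) β) (rename (toS k l m) f) = aeval (pt x y β) f := by
  rw [aeval_rename]
  congr 2
  funext v
  rcases v with i | i | i
  · change Fin.append x y (Fin.castAdd l i) = x i
    rw [Fin.append_left]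
  · change Fin.append x y (Fin.natAdd k i) = y i
    rw [Fin.append_right]
  · rfl

theorem card_rename {σ τ : Type} (g : σ → τ) (f : MvPolynomial σ K) :
    (rename g f).support.card ≤ f.support.card := by
  classical
  refine (Finset.card_le_card (?_ : (rename g f).support ⊆
    f.support.image (Finsupp.mapDomain g))).trans Finset.card_image_le
  intro d hd
  obtain ⟨u, hu, hu'⟩ := coeff_rename_ne_zero g f d (mem_support_iff.1 hd)
  exact Finset.mem_image.2 ⟨u, mem_support_iff.2 hu', hu⟩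

/-- a polynomial with few terms, zero at the special point, is zero at the generic one -/
theorem zero_of {s N E : ℕ} {δ : Derivation K L L} {a b : Fin N → L}
    (hE : ∀ f : MvPolynomial (Fin N) K, f.support.card ≤ s →
      RelV δ 1 (Fin.snoc a (aeval a f) : Fin (N + 1) → L) (Fin.snoc b (aeval b f)) → RelV δ E a b)
    (h : ¬ RelV δ E a b) (f : MvPolynomial (Fin N) K) (hf : f.support.card ≤ s)
    (hb : aeval b f = 0) : aeval a f = 0 := by
  by_contra ha
  refine h (hE f hf ⟨X (Fin.last N, 0), Bdd.X _ (Nat.zero_le _) le_rfl, ?_, ?_⟩)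
  · rw [aeval_X]
    change (Fin.snoc a (aeval a f) : Fin (N + 1) → L) (Fin.last N) ≠ 0
    rw [Fin.snoc_last]
    exact ha
  · rw [aeval_X]
    change (Fin.snoc b (aeval b f) : Fin (N + 1) → L) (Fin.last N) = 0
    rw [Fin.snoc_last]
    exact hb

end

/-- a point which is not generic has a relation of bounded size -/
theorem gen_rel_of
    (hA : ∀ {k l m : ℕ} (x : Fin k → ℂ) (z : Fin l → ℂ) (α : Fin m → ℂ),
      (∀ Φ : MvPolynomial (Fin k ⊕ Fin l) KA, aeval (Sum.elim x z) Φ = 0 →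
        ∀ y : Fin l → ℂ, aeval (Sum.elim x y) Φ = 0) →
      ∀ P : Fin m → MvPolynomial (Fin k ⊕ (Fin l ⊕ Fin m)) KA,
        (∀ i, aeval (pt x z α) (P i) = 0) → aeval (pt x z α) (Jac P).det ≠ 0 → ∀ (j : Fin l)
          (Φ : MvPolynomial (Fin k ⊕ (Fin l ⊕ Fin m)) KA), aeval (pt x z α) Φ = 0 →
            aeval (pt x z α) (DD P j Φ) = 0)
    (hB : ∀ {k l m : ℕ} (x : Fin k → ℂ) (y : Fin l → ℂ) (β : Fin m → ℂ)
      (P : Fin m → MvPolynomial (Fin k ⊕ (Fin l ⊕ Fin m)) KA),
      (∀ i, aeval (pt x y β) (P i) = 0) → aeval (pt x y β) (Jac P).det ≠ 0 →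
        ∀ I : Set (MvPolynomial (Fin k ⊕ (Fin l ⊕ Fin m)) KA), (∀ Φ ∈ I, ∀ j, DD P j Φ ∈ I) →
          (∀ Φ ∈ I, aeval (pt x y β) Φ = 0) →
            ∀ Φ ∈ I, ∀ᶠ q : (Fin l → ℂ) × (Fin m → ℂ) in nhds (y, β),
              (∀ i, aeval (pt x q.1 q.2) (P i) = 0) → aeval (pt x q.1 q.2) Φ = 0)
    (k l s : ℕ) : ∃ D : ℕ, ∀ δ : Derivation KA ℂ ℂ, CK δ →
    ∀ (x : Fin k → ℂ) (z : Fin l → ℂ), (∀ y, Spz δ (Fin.append x z) (Fin.append x y)) →
      ∀ y : Fin l → ℂ, ¬ GenY KA s x y → RelV δ D (Fin.append x z) (Fin.append x y) := by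
  choose E1 hE1 using fun m => entry s (k + l + m) 1
  choose E hE using fun m => sblock KA ℂ m s (k + l) (E1 m)
  refine ⟨∑ m ∈ Finset.range (s + 1), E m, ?_⟩
  intro δ hδ x z hxz y hy
  unfold GenY at hy
  push Not at hy
  obtain ⟨m, P, R, β, hm, hP, hR, h0, hJ, hR0, hev⟩ := hy
  by_contra hrel
  have hle : E m ≤ ∑ m ∈ Finset.range (s + 1), E m :=
    Finset.single_le_sum (f := E) (fun _ _ => Nat.zero_le _)
      (Finset.mem_range.2 (Nat.lt_succ_of_le hm))
  have hrel' : ¬ RelV δ (E m) (Fin.append x z) (Fin.append x y) :=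
    fun h => hrel (h.mono hle)
  have hJ2 : (Matrix.of fun i i' => aeval (Sum.elim (Fin.append x y) β)
      (pderiv (Sum.inr i') (rename (toS k l m) (P i)))).det ≠ 0 := by
    have h1 : ∀ i i', aeval (Sum.elim (Fin.append x y) β)
        (pderiv (Sum.inr i') (rename (toS k l m) (P i))) =
          aeval (Sum.elim x (Sum.elim y β)) (pderiv (Sum.inr (Sum.inr i')) (P i)) := by
      intro i i'
      have h2 := pderiv_rename (toS_inj k l m) (Sum.inr (Sum.inr i')) (P i)
      have h3 : toS k l m (Sum.inr (Sum.inr i')) = Sum.inr i' := rfl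
      rw [h3] at h2
      rw [h2, aeval_toS]
      rfl
    simp only [h1]
    exact hJ
  obtain ⟨α, -, hsp, hnr⟩ := hE m δ hδ (Fin.append x z) (Fin.append x y) (hxz y) hrel' ⊤
    (fun x _ => IntermediateField.mem_top) (fun i => rename (toS k l m) (P i))
    (fun i => (card_rename _ _).trans (hP i)) (fun _ _ _ => IntermediateField.mem_top) β
    (fun i => by rw [aeval_toS]; exact h0 i) hJ2
  have hz : ∀ f : MvPolynomial (Fin k ⊕ (Fin l ⊕ Fin m)) KA, f.support.card ≤ s →
      aeval (pt x y β) f = 0 → aeval (pt x z α) f = 0 := by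
    intro f hf hf0
    rw [← aeval_toF] at hf0 ⊢
    exact zero_of (fun f hf h => hE1 m δ hδ _ _ hsp f hf h) hnr _
      ((card_rename _ _).trans hf) hf0
  have hs : ∀ f : MvPolynomial (Fin k ⊕ (Fin l ⊕ Fin m)) KA,
      aeval (pt x z α) f = 0 → aeval (pt x y β) f = 0 := by
    intro f hf0
    rw [← aeval_toF] at hf0 ⊢
    exact spz_pol hsp _ hf0
  have hdet : ∀ (y' : Fin l → ℂ) (β' : Fin m → ℂ), aeval (pt x y' β') (Jac P).det =
      (Matrix.of fun i i' => aeval (Sum.elim x (Sum.elim y' β'))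
        (pderiv (Sum.inr (Sum.inr i')) (P i))).det := by
    intro y' β'
    rw [AlgHom.map_det]
    rfl
  have hJy : aeval (pt x y β) (Jac P).det ≠ 0 := by
    rw [hdet]
    exact hJ
  have hJz : aeval (pt x z α) (Jac P).det ≠ 0 := fun h => hJy (hs _ h)
  have hgen : ∀ Φ : MvPolynomial (Fin k ⊕ Fin l) KA, aeval (Sum.elim x z) Φ = 0 →
      ∀ y : Fin l → ℂ, aeval (Sum.elim x y) Φ = 0 := by
    intro Φ hΦ y'
    have key : ∀ w : Fin l → ℂ, aeval (Fin.append x w)
        (rename (Sum.elim (Fin.castAdd l) (Fin.natAdd k)) Φ) = aeval (Sum.elim x w) Φ := by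
      intro w
      rw [aeval_rename]
      congr 2
      funext v
      rcases v with i | i
      · exact Fin.append_left _ _ _
      · exact Fin.append_right _ _ _
    rw [← key] at hΦ ⊢
    exact spz_pol (hxz y') _ hΦ
  have hst : ∀ Φ ∈ {Φ : MvPolynomial (Fin k ⊕ (Fin l ⊕ Fin m)) KA | aeval (pt x z α) Φ = 0},
      ∀ j, DD P j Φ ∈ {Φ : MvPolynomial (Fin k ⊕ (Fin l ⊕ Fin m)) KA |
        aeval (pt x z α) Φ = 0} := by
    intro Φ hΦ j
    exact hA x z α hgen P (fun i => hz _ (hP i) (h0 i)) hJz j Φ hΦ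
  exact hev ((hB x y β P h0 hJy _ hst (fun Φ hΦ => hs Φ hΦ) R (hz R hR hR0)).mono
    fun q hq hq' => hq'.2 (hq hq'.1))

end Pool.Agent.FNG
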