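import Mathlib

set_option autoImplicit false

/-!
# Families of functions of one variable with derivatives in their own span
-/

namespace Pool.Agent.FNG

theorem line_fin {ι : Type} (f : ι → ℂ → ℂ) (w : ℂ → ℂ) (U : Set ℂ) (hU : IsOpen U)
    (hc : Convex ℝ U) (h0 : (0 : ℂ) ∈ U) (hf : ∀ i, DifferentiableOn ℂ (f i) U)
    (hw0 : ∀ t ∈ U, w t ≠ 0) (hw : DifferentiableOn ℂ w U) (hz : ∀ i, f i 0 = 0)
    (hd : ∀ i, ∃ (n : ℕ) (c : Fin n → ℂ) (g : Fin n → ι), ∀ t ∈ U,
      w t * deriv (f i) t = ∑ j, c j * f (g j) t) : ∀ i, ∀ t ∈ U, f i t = 0 := by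
  intro i t ht
  have hfa : ∀ i, AnalyticOnNhd ℂ (f i) U := fun i => (hf i).analyticOnNhd hU
  have hwa : AnalyticOnNhd ℂ w U := hw.analyticOnNhd hU
  have key : ∀ (n : ℕ) (i : ι), (n : ℕ∞) ≤ analyticOrderAt (f i) 0 := by
    intro n
    induction n with
    | zero => intro i; simp
    | succ n ih =>
      intro i
      obtain ⟨m, c, g, h1⟩ := hd i
      have h2 : (fun t => w t * deriv (f i) t) =ᶠ[nhds 0] fun t => ∑ j, c j * f (g j) t := by
        filter_upwards [hU.mem_nhds h0] with t ht using h1 t ht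
      have h3 : (n : ℕ∞) ≤ analyticOrderAt (fun t => ∑ j, c j * f (g j) t) 0 := by
        rw [natCast_le_analyticOrderAt]
        · have h4 : ∀ j : Fin m, ∃ G : ℂ → ℂ, AnalyticAt ℂ G 0 ∧
              ∀ᶠ z in nhds 0, f (g j) z = (z - 0) ^ n • G z := fun j =>
            (natCast_le_analyticOrderAt (hfa (g j) 0 h0)).1 (ih (g j))
          choose G hG hGe using h4
          refine ⟨fun z => ∑ j, c j * G j z, ?_, ?_⟩
          · exact Finset.univ.analyticAt_fun_sum fun j _ => analyticAt_const.mul (hG j)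
          · have h5 : ∀ᶠ z in nhds (0 : ℂ), ∀ j, f (g j) z = (z - 0) ^ n • G j z :=
              Filter.eventually_all.2 hGe
            filter_upwards [h5] with z hz
            rw [smul_eq_mul, Finset.mul_sum]
            refine Finset.sum_congr rfl fun j _ => ?_
            rw [hz j, smul_eq_mul]
            ring
        · exact Finset.univ.analyticAt_fun_sum fun j _ => analyticAt_const.mul (hfa (g j) 0 h0)
      have h4 : analyticOrderAt (fun t => w t * deriv (f i) t) 0 =
          analyticOrderAt (deriv (f i)) 0 := by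
        have h5 := analyticOrderAt_mul (hwa 0 h0) (hfa i 0 h0).deriv
        have h6 : analyticOrderAt w 0 = 0 := (hwa 0 h0).analyticOrderAt_eq_zero.2 (hw0 0 h0)
        rw [h6, zero_add] at h5
        exact h5
      rw [← analyticOrderAt_congr h2, h4] at h3
      have h7 := (hfa i 0 h0).analyticOrderAt_deriv_add_one
      rw [hz i] at h7
      simp only [sub_zero] at h7
      rw [← h7]
      push_cast
      exact add_le_add_left h3 1
  have h1 : analyticOrderAt (f i) 0 = ⊤ := ENat.eq_top_iff_forall_ge.2 fun n => key n i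
  have h2 : ∀ᶠ z in nhds (0 : ℂ), f i z = 0 := analyticOrderAt_eq_top.1 h1
  exact (hfa i).eqOn_zero_of_preconnected_of_eventuallyEq_zero hc.isPreconnected h0 h2 ht

end Pool.Agent.FNG
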