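import Pool.Agent.FNG.Def
import Pool.Agent.FNY.MainC
import Pool.Agent.FNY.MultiY

/-! # Systems and generic points: the differential polynomial -/

set_option autoImplicit false

namespace Pool.Agent.FNG

open MvPolynomial Pool.Agent.FN Pool.Agent.FNX Pool.Agent.FNR Pool.Agent.FNS Pool.Agent.FNY

/-- a linear dependence is a relation of bounded size -/
theorem dep_rel (k l s : ℕ) : ∃ D : ℕ, ∀ δ : Derivation KA ℂ ℂ, CK δ →
    ∀ (x : Fin k → ℂ) (z : Fin l → ℂ), (∀ y, Spz δ (Fin.append x z) (Fin.append x y)) →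
      ∀ y : Fin l → ℂ, DepY s x y → RelV δ D (Fin.append x z) (Fin.append x y) := by
  choose D hD using fun N : ℕ => multiY KA ℂ s (N + N) (k + l) 2
  refine ⟨∑ N ∈ Finset.range (s + 1), D N, fun δ hδ x z hz y hy => ?_⟩
  obtain ⟨I, J, N, u, w, hN, hu, hw, hli, h0, hw0⟩ := hy
  by_contra hnr
  have hnr' : ¬ RelV δ (D N) (Fin.append x z) (Fin.append x y) := fun h =>
    hnr (h.mono (Finset.single_le_sum (f := fun N => D N) (fun _ _ => Nat.zero_le _)
      (Finset.mem_range.2 (Nat.lt_succ_of_le hN))))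
  have hu' : ∀ i, Gvy KA s (Fin.append x y ''
      (Fin.castAdd l '' Set.univ ∪ Fin.natAdd k '' J)) (u i) := by
    intro i
    rw [append_image, Set.image_univ]
    exact hu i
  have hw' : ∀ i, Gvy KA s (Fin.append x y ''
      (Fin.castAdd l '' I ∪ Fin.natAdd k '' Jᶜ)) (w i) := by
    intro i
    rw [append_image]
    exact hw i
  obtain ⟨V, hV, hs, hrel⟩ := hD N δ hδ _ _ (hz y) hnr'
    (Fin.append (fun _ => Fin.castAdd l '' Set.univ ∪ Fin.natAdd k '' J)
      (fun _ => Fin.castAdd l '' I ∪ Fin.natAdd k '' Jᶜ)) (Fin.append u w)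
    (fun i => by
      refine Fin.addCases (fun i => ?_) (fun i => ?_) i
      · simp only [Fin.append_left]
        exact hu' i
      · simp only [Fin.append_right]
        exact hw' i)
  let U : Fin N → ℂ := fun i => V (Fin.castAdd N i)
  let W : Fin N → ℂ := fun i => V (Fin.natAdd N i)
  have hU : ∀ i, U i ∈ acl KA (Set.range x ∪ z '' J) := by
    intro i
    have h1 := hV (Fin.castAdd N i)
    simp only [Fin.append_left] at h1
    rw [append_image, Set.image_univ] at h1
    exact h1
  have hW : ∀ i, W i ∈ acl KA (x '' I ∪ z '' Jᶜ) := by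
    intro i
    have h1 := hV (Fin.natAdd N i)
    simp only [Fin.append_right] at h1
    rwa [append_image] at h1
  -- the `U` are linearly independent
  have hsU : Spz δ (Fin.append (Fin.append x z) U) (Fin.append (Fin.append x y) u) := by
    refine spz_comp hs (Fin.append (Fin.castAdd (N + N)) fun i => Fin.natAdd (k + l)
      (Fin.castAdd N i)) (fun i => ?_) (fun i => ?_)
    · refine Fin.addCases (fun i => ?_) (fun i => ?_) i
      · simp only [Fin.append_left]
      · simp only [Fin.append_right]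
        rfl
    · refine Fin.addCases (fun i => ?_) (fun i => ?_) i
      · simp only [Fin.append_left]
      · simp only [Fin.append_right, Fin.append_left]
  have hxI : ∀ y : Fin l → ℂ, Fin.append x y '' (Fin.castAdd l '' I) = x '' I := by
    intro y
    have h6 := append_image x y I ∅
    rwa [Set.image_empty, Set.image_empty, Set.union_empty, Set.union_empty] at h6
  have hliU : LinearIndependent (aclF KA (x '' I)) U := by
    have h1 := li_transfer hsU (Fin.castAdd l '' I) (by
      rintro _ ⟨i, -, rfl⟩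
      rw [Fin.append_left, Fin.append_left])
    rw [hxI y] at h1
    exact h1 hli
  -- the `W` are not all zero
  have hW0 : W ≠ 0 := by
    intro h
    apply hw0
    funext i
    by_contra h1
    have h2 := spz_ne hs (i := Fin.natAdd (k + l) (Fin.natAdd N i)) (by
      rw [Fin.append_right, Fin.append_right]
      exact h1)
    rw [Fin.append_right] at h2
    exact h2 (congrFun h i)
  have hsum : ∑ i, W i * U i ≠ 0 := fun h =>
    hW0 (li_gen x z hz I J U W hU hW hliU h)
  refine hrel ⟨∑ i : Fin N, X (Fin.natAdd (k + l) (Fin.natAdd N i), 0) *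
    X (Fin.natAdd (k + l) (Fin.castAdd N i), 0), ?_, ?_, ?_⟩
  · exact Bdd.sum _ _ fun i _ => (Bdd.X _ (Nat.zero_le _) le_rfl).mul
      (Bdd.X _ (Nat.zero_le _) le_rfl)
  · rw [map_sum]
    simp only [map_mul, aeval_X]
    change ∑ i, Fin.append (Fin.append x z) V (Fin.natAdd (k + l) (Fin.natAdd N i)) *
      Fin.append (Fin.append x z) V (Fin.natAdd (k + l) (Fin.castAdd N i)) ≠ 0
    simp only [Fin.append_right]
    exact hsum
  · rw [map_sum]
    simp only [map_mul, aeval_X]
    change ∑ i, Fin.append (Fin.append x y) (Fin.append u w)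
      (Fin.natAdd (k + l) (Fin.natAdd N i)) *
        Fin.append (Fin.append x y) (Fin.append u w) (Fin.natAdd (k + l) (Fin.castAdd N i)) = 0
    simp only [Fin.append_right, Fin.append_left]
    exact h0

/-- both kinds of points are zeros of one differential polynomial; the hypothesis is `gen_rel` -/
theorem keyG_of (k l s : ℕ)
    (hG : ∃ D : ℕ, ∀ δ : Derivation KA ℂ ℂ, CK δ →
      ∀ (x : Fin k → ℂ) (z : Fin l → ℂ), (∀ y, Spz δ (Fin.append x z) (Fin.append x y)) →
        ∀ y : Fin l → ℂ, ¬ GenY KA s x y → RelV δ D (Fin.append x z) (Fin.append x y)) :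
    ∃ E r : ℕ, ∀ x : Fin k → ℂ,
      ∃ δ : Derivation KA ℂ ℂ, CK δ ∧ ∃ Ψ : MvPolynomial (Fin l × ℕ) ℂ, Ψ ≠ 0 ∧
        Ψ.totalDegree ≤ E ∧ (∀ v ∈ Ψ.vars, v.2 < r) ∧
          ∀ y : Fin l → ℂ, DepY s x y ∨ ¬ GenY KA s x y → eval (jet δ y) Ψ = 0 := by
  obtain ⟨D1, h1⟩ := dep_rel k l s
  obtain ⟨D2, h2⟩ := hG
  obtain ⟨E, r, hEr⟩ := psiV k l (max D1 D2)
  refine ⟨E, r, fun x => ?_⟩
  have := isAlgClosed_KA
  have := countable_KA
  obtain ⟨δ, hδ, hU⟩ := exists_uni (K := KA)
  obtain ⟨z, hz⟩ := hU k l x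
  obtain ⟨Ψ, hΨ0, hΨE, hΨr, hΨ⟩ := hEr δ hδ x z hz
  refine ⟨δ, hδ, Ψ, hΨ0, hΨE, hΨr, fun y hy => ?_⟩
  have hrel : RelV δ (max D1 D2) (Fin.append x z) (Fin.append x y) := by
    rcases hy with hy | hy
    · exact (h1 δ hδ x z hz y hy).mono (le_max_left _ _)
    · exact (h2 δ hδ x z hz y hy).mono (le_max_right _ _)
  rw [← hΨ y hrel, aeval_def, Algebra.algebraMap_self, eval₂_id]

end Pool.Agent.FNG
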