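import Pool.Agent.FNG.MainC
import Pool.Agent.FNG.GenRelOf
import Pool.Agent.FNG.Part
import Pool.Agent.FNG.Vanish

/-! # Systems, generic points and the density theorem -/

set_option autoImplicit false

namespace Pool.Agent.FNG

open MvPolynomial Pool.Agent.FN Pool.Agent.FNX Pool.Agent.FNR Pool.Agent.FNS Pool.Agent.FNY

/-- as `FNY.keyY`, for both clauses -/
theorem keyG (k l s : ℕ) : ∃ E r : ℕ, ∀ x : Fin k → ℂ,
    ∃ δ : Derivation KA ℂ ℂ, CK δ ∧ ∃ Ψ : MvPolynomial (Fin l × ℕ) ℂ, Ψ ≠ 0 ∧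
      Ψ.totalDegree ≤ E ∧ (∀ v ∈ Ψ.vars, v.2 < r) ∧
        ∀ y : Fin l → ℂ, DepY s x y ∨ ¬ GenY KA s x y → eval (jet δ y) Ψ = 0 :=
  keyG_of k l s (gen_rel_of (fun {_ _ _} => part_stable) (fun {_ _ _} => vanish_near) k l s)

end Pool.Agent.FNG
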